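import Pool.Agent.N929.EX.Stm

/-!
# EX/OFF: few walks have many occupied and only few free slots
-/

set_option autoImplicit false
set_option linter.unusedVariables false

namespace Pool.Agent.N27.EX

open Pool.Agent.H976R2 Pool.Agent.H976R2.Dir Finset
open Pool.Agent.N929.EX
open scoped Classical

noncomputable section

/-- the set of the statement -/
def BB (L : Finset (ℤ × ℤ)) (s : Fin 3) (T : ℕ × ℕ) (n K b : ℕ) : Finset (List Dir) :=
  (SW n).filter (fun w => K ≤ (OO L s T w).card ∧ (DD L s T w).card ≤ (OO L s T w).card + b)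

theorem OO_subset_DD (L : Finset (ℤ × ℤ)) (s : Fin 3) (T : ℕ × ℕ) (w : List Dir) :
    OO L s T w ⊆ DD L s T w := by
  intro q hq
  unfold N929.EX.OO at hq
  unfold DD
  rw [mem_filter] at hq ⊢
  obtain ⟨h1, k, h2, h3⟩ := hq
  exact ⟨h1, k, Or.inr ⟨h2, h3⟩⟩

/-- one step -/
theorem step_card (h : S_TOG) (L : Finset (ℤ × ℤ)) (hL : CF L) (s : Fin 3) (T : ℕ × ℕ)
    (n K b : ℕ) (hT : T.1 ≤ T.2) (hn : T.2 ≤ n) :
    K * (BB L s (up s T) (n + 2) K b).card ≤ (b + 1) * (BB L s T n (K - 1) (b + 1)).card := by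
  obtain ⟨f, g, hf, hg⟩ := h L hL
  -- the pairs
  have h1 : K * (BB L s (up s T) (n + 2) K b).card ≤
      ((BB L s (up s T) (n + 2) K b).sigma (fun w => OO L s (up s T) w)).card := by
    rw [card_sigma, mul_comm, ← smul_eq_mul, ← Finset.sum_const]
    apply Finset.sum_le_sum
    intro w hw
    exact (mem_filter.1 hw).2.1
  have h2 : ((BB L s T n (K - 1) (b + 1)).sigma
      (fun w => DD L s T w \ OO L s T w)).card ≤ (b + 1) * (BB L s T n (K - 1) (b + 1)).card := by
    rw [card_sigma, mul_comm, ← smul_eq_mul, ← Finset.sum_const]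
    apply Finset.sum_le_sum
    intro w hw
    have h3 := (mem_filter.1 hw).2.2
    have h4 := card_sdiff_of_subset (OO_subset_DD L s T w)
    omega
  refine h1.trans (le_trans ?_ h2)
  refine card_le_card_of_injOn (fun x => ⟨g x.1 x.2, x.2⟩) ?_ ?_
  · rintro ⟨w, p⟩ hx
    have hx' := mem_sigma.1 (mem_coe.1 hx)
    obtain ⟨hw, hp⟩ := hx'
    simp only at hw hp
    have hw' := mem_filter.1 hw
    obtain ⟨hw1, hw2, hw3⟩ := hw'
    obtain ⟨g1, g2, g3⟩ := hg s T n w p hT hn hw1 hp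
    have e1 : (OO L s (up s T) w).card = (OO L s T (g w p)).card + 1 := by
      rw [g2.os, card_insert_of_notMem g2.nm]
    have e2 : (DD L s (up s T) w).card = (DD L s T (g w p)).card := by
      rw [g2.dd s]
    apply mem_coe.2
    apply mem_sigma.2
    refine ⟨?_, ?_⟩
    · apply mem_filter.2
      refine ⟨g1, ?_, ?_⟩
      · show K - 1 ≤ (OO L s T (g w p)).card
        omega
      · show (DD L s T (g w p)).card ≤ (OO L s T (g w p)).card + (b + 1)
        omega
    · exact mem_sdiff.2 ⟨g2.mem, g2.nm⟩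
  · rintro ⟨w, p⟩ hx ⟨w', p'⟩ hx' heq
    have hx1 := mem_sigma.1 (mem_coe.1 hx)
    have hx2 := mem_sigma.1 (mem_coe.1 hx')
    simp only at hx1 hx2
    have g1 := hg s T n w p hT hn (mem_filter.1 hx1.1).1 hx1.2
    have g2 := hg s T n w' p' hT hn (mem_filter.1 hx2.1).1 hx2.2
    simp only [Sigma.mk.injEq, heq_eq_eq] at heq
    obtain ⟨e1, e2⟩ := heq
    subst e2
    have e3 : w = w' := by rw [← g1.2.2, ← g2.2.2, e1]
    subst e3
    rfl

/-- the times before the insertion -/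
theorem exists_down (s : Fin 3) (T : ℕ × ℕ) (n a : ℕ) (h1 : T.1 ≤ T.2) (h2 : T.2 ≤ n)
    (h0 : s = 0 → 2 * (a + 1) ≤ T.1) (h1' : s = 1 → T.1 + 2 * (a + 1) ≤ T.2)
    (h2' : s = 2 → T.2 + 2 * (a + 1) ≤ n) :
    ∃ (T' : ℕ × ℕ) (n' : ℕ), T = up s T' ∧ n = n' + 2 ∧ T'.1 ≤ T'.2 ∧ T'.2 ≤ n' ∧
      (s = 0 → 2 * a ≤ T'.1) ∧ (s = 1 → T'.1 + 2 * a ≤ T'.2) ∧ (s = 2 → T'.2 + 2 * a ≤ n') := by
  obtain ⟨t1, t2⟩ := T
  simp only at h1 h2 h0 h1' h2'
  fin_cases s
  · have h := h0 rfl
    refine ⟨(t1 - 2, t2 - 2), n - 2, ?_, ?_, ?_, ?_, ?_, ?_, ?_⟩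
    · simp only [up]
      ext <;> simp <;> omega
    · omega
    · simp only; omega
    · simp only; omega
    · intro _; simp only; omega
    · intro h; exact absurd h (by decide)
    · intro h; exact absurd h (by decide)
  · have h := h1' rfl
    refine ⟨(t1, t2 - 2), n - 2, ?_, ?_, ?_, ?_, ?_, ?_, ?_⟩
    · simp only [up]
      ext <;> simp <;> omega
    · omega
    · simp only; omega
    · simp only; omega
    · intro h; exact absurd h (by decide)
    · intro _; simp only; omega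
    · intro h; exact absurd h (by decide)
  · have h := h2' rfl
    refine ⟨(t1, t2), n - 2, ?_, ?_, ?_, ?_, ?_, ?_, ?_⟩
    · simp only [up]
      ext <;> simp
    · omega
    · simp only; omega
    · simp only; omega
    · intro h; exact absurd h (by decide)
    · intro h; exact absurd h (by decide)
    · intro _; simp only; omega

theorem iter (h : S_TOG) (L : Finset (ℤ × ℤ)) (hL : CF L) (s : Fin 3) (M : ℕ) (a : ℕ) :
    ∀ (T : ℕ × ℕ) (n K b : ℕ), T.1 ≤ T.2 → T.2 ≤ n → b + a ≤ 2 * M → 7 * M + a ≤ K →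
      (s = 0 → 2 * a ≤ T.1) → (s = 1 → T.1 + 2 * a ≤ T.2) → (s = 2 → T.2 + 2 * a ≤ n) →
      ((BB L s T n K b).card : ℝ) ≤ (2 / 7 : ℝ) ^ a * ((SW (n - 2 * a)).card : ℝ) := by
  induction a with
  | zero =>
    intro T n K b hT hn hb hK h0 h1 h2
    simp only [pow_zero, one_mul, Nat.mul_zero, Nat.sub_zero]
    exact_mod_cast card_filter_le _ _
  | succ a ih =>
    intro T n K b hT hn hb hK h0 h1 h2
    obtain ⟨T', n', e1, e2, hT', hn', h0', h1', h2'⟩ := exists_down s T n a hT hn h0 h1 h2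
    subst e1 e2
    have i1 := step_card h L hL s T' n' K b hT' hn'
    have i2 := ih T' n' (K - 1) (b + 1) hT' hn' (by omega) (by omega) h0' h1' h2'
    have e3 : n' + 2 - 2 * (a + 1) = n' - 2 * a := by omega
    rw [e3, pow_succ, mul_comm ((2 / 7 : ℝ) ^ a) (2 / 7), mul_assoc]
    refine le_trans ?_ (mul_le_mul_of_nonneg_left i2 (by norm_num))
    have i3 : 7 * (K * (BB L s (up s T') (n' + 2) K b).card) ≤
        2 * (K * (BB L s T' n' (K - 1) (b + 1)).card) := by
      calc 7 * (K * (BB L s (up s T') (n' + 2) K b).card)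
          ≤ 7 * ((b + 1) * (BB L s T' n' (K - 1) (b + 1)).card) := Nat.mul_le_mul_left _ i1
        _ = (7 * (b + 1)) * (BB L s T' n' (K - 1) (b + 1)).card := by ring
        _ ≤ (2 * K) * (BB L s T' n' (K - 1) (b + 1)).card := Nat.mul_le_mul_right _ (by omega)
        _ = 2 * (K * (BB L s T' n' (K - 1) (b + 1)).card) := by ring
    have hKp : 0 < K := by omega
    have i4 : K * (7 * (BB L s (up s T') (n' + 2) K b).card) ≤
        K * (2 * (BB L s T' n' (K - 1) (b + 1)).card) := by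
      calc K * (7 * (BB L s (up s T') (n' + 2) K b).card)
          = 7 * (K * (BB L s (up s T') (n' + 2) K b).card) := by ring
        _ ≤ _ := i3
        _ = _ := by ring
    have i5 := Nat.le_of_mul_le_mul_left i4 hKp
    have i6 : (7 : ℝ) * ((BB L s (up s T') (n' + 2) K b).card : ℝ) ≤
        2 * ((BB L s T' n' (K - 1) (b + 1)).card : ℝ) := by exact_mod_cast i5
    linarith

/-- OFF -/
theorem off (h : S_TOG) : S_OFF := by
  intro L hL s T n a b K hT hn hb hK h0 h1 h2
  exact iter h L hL s a a T n K b hT hn (by omega) (by omega) h0 h1 h2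

end

end Pool.Agent.N27.EX
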